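import Pool.Agent.U201.NP.Defs
import Pool.Agent.U201.PR.PairNef

/-!
# Products of varieties whose nef classes are effective
-/

set_option autoImplicit false

namespace Pool.Agent.U201.NP

open Pool.Agent.X324.CF Pool.Agent.U201.EC Pool.Agent.U201.NS Pool.Agent.U201.PR

section

variable {ρ₁ ρ₂ : ℕ} {R₁ R₂ R : Type*} [CommRing R₁] [Algebra ℂ R₁] [CommRing R₂] [Algebra ℂ R₂]
    [CommRing R] [Algebra ℂ R] {𝒜₁ : Cl ρ₁ → Submodule ℂ R₁} {𝒜₂ : Cl ρ₂ → Submodule ℂ R₂}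
    {𝒜 : Cl (ρ₁ + ρ₂) → Submodule ℂ R} {ι₁ : R₁ →ₐ[ℂ] R} {ι₂ : R₂ →ₐ[ℂ] R}
    {v : Cl (ρ₁ + ρ₂)}

theorem isProj_prod [GradedAlgebra 𝒜₁] [GradedAlgebra 𝒜₂] [IsDomain R₁]
    [IsDomain R₂] [IsDomain R] (P : IsProduct 𝒜₁ 𝒜₂ 𝒜 ι₁ ι₂)
    (F₁ : IsProj 𝒜₁ (pr1 v)) (F₂ : IsProj 𝒜₂ (pr2 v)) : IsProj 𝒜 v where
  point := by
    obtain ⟨p₁, h1⟩ := F₁.point
    obtain ⟨p₂, h2⟩ := F₂.point
    have e1 : (P.pt p₁ p₂).comp ι₁ = p₁ := by ext a; exact P.pt₁ p₁ p₂ a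
    have e2 : (P.pt p₁ p₂).comp ι₂ = p₂ := by ext a; exact P.pt₂ p₁ p₂ a
    exact ⟨P.pt p₁ p₂, (semistable_iff P).2 (by rw [e1, e2]; exact ⟨h1, h2⟩)⟩
  const := const_prod P F₁.const F₂.const
  sections := fun β => by
    obtain ⟨M, hM⟩ := sections_large' F₁.sections (pr1 β)
    obtain ⟨N, hN⟩ := sections_large' F₂.sections (pr2 β)
    refine ⟨M + N, eff_mk P ?_ ?_, eff_mk P ?_ ?_⟩
    · exact (hM (M + N) (by omega)).1
    · exact (hN (M + N) (by omega)).1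
    · exact (hM (M + N) (by omega)).2
    · exact (hN (M + N) (by omega)).2
  ample := fun β => by
    obtain ⟨M, hM⟩ := ample_large' F₁.ample (pr1 β)
    obtain ⟨N, hN⟩ := ample_large' F₂.ample (pr2 β)
    exact ⟨M + N, semiample_mk P (hM (M + N) (by omega)) (hN (M + N) (by omega))⟩

end

theorem nefIsEff_prod {𝒞 : Variety → Prop} (h𝒞 : ∀ F, 𝒞 F → NefIsEff F) {F : Variety}
    (hF : ProductOf 𝒞 F) : NefIsEff F := by
  induction hF with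
  | factor F h => exact h𝒞 F h
  | prod F₁ F₂ R 𝒜 ι₁ ι₂ _ _ P ih1 ih2 =>
    have e1 : pr1 (Fin.append F₁.u F₂.u) = F₁.u := pr1_append _ _
    have e2 : pr2 (Fin.append F₁.u F₂.u) = F₂.u := pr2_append _ _
    refine ⟨isProj_prod P (by rw [e1]; exact ih1.1) (by rw [e2]; exact ih2.1), fun β hβ => ?_⟩
    have h1 := nef_q1 P (v := Fin.append F₁.u F₂.u) (by rw [e2]; exact ih2.1.point) hβ
    have h2 := nef_q2 P (v := Fin.append F₁.u F₂.u) (by rw [e1]; exact ih1.1.point) hβ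
    rw [e1, q1_rv] at h1
    rw [e2, q2_rv] at h2
    rw [← j_add (rv β)]
    exact hull_add (eff_j1 P (by rw [q1_rv]; exact ih1.2 _ h1))
      (eff_j2 P (by rw [q2_rv]; exact ih2.2 _ h2))

end Pool.Agent.U201.NP
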