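import Pool.Agent.U201.NS.Defs
import Pool.Agent.U201.PR.VarDefs

/-!
# Varieties whose nef classes are effective: definitions
-/

set_option autoImplicit false

namespace Pool.Agent.U201.NP

open Pool.Agent.X324.CF Pool.Agent.U201.EC Pool.Agent.U201.NS Pool.Agent.U201.PR

/-- `F` is a projective variety with ample class `u`, and all nef classes in `Cl(F)` are in the
effective cone `Eff(F)`, the real cone spanned by the classes of effective divisors. -/
def NefIsEff (F : Variety) : Prop :=
  IsProj F.𝒜 F.u ∧ ∀ β, rv β ∈ NefF F.𝒜 F.u → rv β ∈ EffF F.𝒜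

end Pool.Agent.U201.NP
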