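import Pool.Agent.U201.NS.Num
import Pool.Agent.U201.PR.MovMain
import Pool.Agent.X324.CF.Plus2

/-!
# Effective classes in the nef cone of `(A × F) / G`
-/

set_option autoImplicit false

namespace Pool.Agent.U201.NP

open Finset Filter Topology
open Pool.Agent.W594.SYZ2 Pool.Agent.W594.SYZ2.TQ Pool.Agent.TH735.AQ
open Pool.Agent.X324.CF
open Pool.Agent.U201.EC Pool.Agent.U201.NS
open Pool.Agent.Y167 (Rel Cp)

variable {V E R : Type*} [NormedAddCommGroup V] [NormedSpace ℂ V]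
  [NormedAddCommGroup E] [NormedSpace ℂ E] [CommRing R] [Algebra ℂ R] {ρ : ℕ}
  {𝒜 : Cl ρ → Submodule ℂ R} {Γ : Grp V R} {j : E →ₗ[ℂ] V} {u : Cl ρ} {H₀ : V → V → ℂ}

variable [IsDomain R] [GradedAlgebra 𝒜]

theorem eff_sum {ι : Type*} (s : Finset ι) (g : ι → Cl ρ)
    (h : ∀ i ∈ s, ∃ r ∈ 𝒜 (g i), r ≠ 0) : ∃ r ∈ 𝒜 (∑ i ∈ s, g i), r ≠ 0 := by
  classical
  induction s using Finset.induction_on with
  | empty => exact ⟨1, by rw [Finset.sum_empty]; exact SetLike.GradedOne.one_mem, one_ne_zero⟩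
  | insert i s hi ih =>
    rw [Finset.sum_insert hi]
    exact PR.eff_add (h i (Finset.mem_insert_self _ _))
      (ih fun k hk => h k (Finset.mem_insert_of_mem hk))

/-- Invariant effective classes of `F` give effective classes of `X`. -/
theorem i2_eff (F : IsProj 𝒜 u) (hQ : IsQuotient 𝒜 u Γ) {b : Bs 𝒜 Γ} (hb : b.1 ∈ EffF 𝒜) :
    (i2 F.base hQ b : N1 𝒜 Γ j) ∈ effCone 𝒜 Γ j := by
  classical
  have := hQ.fin_gal
  have : Fintype (gal Γ) := Fintype.ofFinite _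
  refine i2_hull' F.base hQ (Q := fun β => ∃ r ∈ 𝒜 β, r ≠ 0) (fun β hβ h => ?_) ?_
  · obtain ⟨r, hr, hr0⟩ := h
    obtain ⟨a, ha1, ha2⟩ := exists_degclass (j := j) F.base hQ hβ 1
    exact ⟨Nat.card (gal Γ) * 1, Nat.mul_pos Nat.card_pos one_pos, a,
      ⟨_, _, ha1, ofDeg_section (by rwa [one_smul]), 0, nrm_ne_zero hr0⟩, ha2⟩
  · refine avg_hull F.base hQ (P := fun β => ∃ r ∈ 𝒜 β, r ≠ 0) (fun β hβ => ?_) b.2 hb
    refine eff_sum _ _ fun φ _ => ?_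
    obtain ⟨r, hr, hr0⟩ := hβ
    exact ⟨φ.1 r, sg_spec hQ φ _ r hr, by rwa [Ne, map_eq_zero_iff _ φ.1.injective]⟩

variable [FiniteDimensional ℂ V] [FiniteDimensional ℂ E]

/-- An integral nef class of `X` is effective if its degree is. -/
theorem int_eff (F : IsProj 𝒜 u) (hQ : IsQuotient 𝒜 u Γ) (Rl : Rel (base Γ) j H₀)
    {a : N1 𝒜 Γ j} (ha : a ∈ intL 𝒜 Γ j) (hK : a ∈ KN 𝒜 Γ j u) (h : (val a).2 ∈ EffF 𝒜) :
    a ∈ effCone 𝒜 Γ j := by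
  have hexp := expo_pos hQ
  have hexpr : (0 : ℝ) < expo Γ := by exact_mod_cast hexp
  rw [← split F.base hQ a]
  refine hull_add ?_ (i2_eff F hQ h)
  have h1 := nef_form Rl (Int.p1 hQ ha) (Pool.Agent.Y167.nef_smul hexpr.le hK.1)
  have h2 := i1_hull (P := effective 𝒜 Γ j) (fun L hs a ha => bpf_effective hs ha) h1
  rw [map_smul] at h2
  have h3 := hull_smul (inv_nonneg.2 hexpr.le) h2
  rwa [smul_smul, inv_mul_cancel₀ hexpr.ne', one_smul] at h3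

theorem rat_eff (F : IsProj 𝒜 u) (hQ : IsQuotient 𝒜 u Γ) (Rl : Rel (base Γ) j H₀)
    {a : N1 𝒜 Γ j} (hK : a ∈ nefCone 𝒜 Γ j u) {m : ℕ} (hm : 0 < m)
    (ha : (m : ℝ) • a ∈ integral 𝒜 Γ j) : a ∈ effCone 𝒜 Γ j ↔ (val a).2 ∈ EffF 𝒜 := by
  refine ⟨eff_deg, fun h => ?_⟩
  have hmr : (0 : ℝ) < m := by exact_mod_cast hm
  rw [NS.closure_eqN F hQ Rl] at hK
  have h1 : (m : ℝ) • a ∈ effCone 𝒜 Γ j := by
    refine int_eff F hQ Rl ha (KN_smul hmr.le hK) ?_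
    change (m : ℝ) • (val a).2 ∈ EffF 𝒜
    exact hull_smul hmr.le h
  have h2 := hull_smul (inv_nonneg.2 hmr.le) h1
  rwa [smul_smul, inv_mul_cancel₀ hmr.ne', one_smul] at h2

theorem plus_eq (F : IsProj 𝒜 u) (hQ : IsQuotient 𝒜 u Γ) (Rl : Rel (base Γ) j H₀) :
    convexHull ℝ (nefCone 𝒜 Γ j u ∩ {a | ∃ m : ℕ, 0 < m ∧ (m : ℝ) • a ∈ integral 𝒜 Γ j})
      = coneHull {a | a ∈ intL 𝒜 Γ j ∧ a ∈ KN 𝒜 Γ j u} := by
  rw [NS.closure_eqN F hQ Rl, ← cp_hull, cp_eq_convexHull KN_zero fun t ht a ha => KN_smul ht ha]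
  rfl

/-- `Nef(X)^+ ⊆ Nef(X)^e`. -/
theorem plus_sub (F : IsProj 𝒜 u) (hQ : IsQuotient 𝒜 u Γ) (Rl : Rel (base Γ) j H₀) :
    convexHull ℝ (nefCone 𝒜 Γ j u ∩ {a | ∃ m : ℕ, 0 < m ∧ (m : ℝ) • a ∈ integral 𝒜 Γ j})
      ⊆ nefEff 𝒜 Γ j u ↔ ∀ β, X324.CF.Inv 𝒜 Γ β → rv β ∈ NefF 𝒜 u → rv β ∈ EffF 𝒜 := by
  have := hQ.fin_gal
  have hcard : (0 : ℝ) < Nat.card (gal Γ) := by
    have : 0 < Nat.card (gal Γ) := Nat.card_pos
    exact_mod_cast this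
  rw [plus_eq F hQ Rl]
  constructor
  · intro h β hβ hn
    have hb : rv β ∈ Bs 𝒜 Γ := Submodule.subset_span ⟨β, hβ, rfl⟩
    have h1 : ((Nat.card (gal Γ) : ℝ) • i2 F.base hQ ⟨rv β, hb⟩ : N1 𝒜 Γ j)
        ∈ coneHull {a | a ∈ intL 𝒜 Γ j ∧ a ∈ KN 𝒜 Γ j u} :=
      hull_mem ⟨Int.i2 F.base hQ (b := ⟨rv β, hb⟩) hβ rfl,
        KN_smul hcard.le ⟨fun e => le_refl (0 : ℝ), hn⟩⟩
    have h2 : (Nat.card (gal Γ) : ℝ) • rv β ∈ EffF 𝒜 := by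
      have h3 := eff_deg (h h1).2
      have h4 : (val ((Nat.card (gal Γ) : ℝ) • i2 F.base hQ ⟨rv β, hb⟩ : N1 𝒜 Γ j)).2
          = (Nat.card (gal Γ) : ℝ) • rv β := by
        change (Nat.card (gal Γ) : ℝ) • (val (i2 F.base hQ ⟨rv β, hb⟩ : N1 𝒜 Γ j)).2 = _
        rw [val_i2]
      rwa [h4] at h3
    have h3 := hull_smul (inv_nonneg.2 hcard.le) h2
    rwa [smul_smul, inv_mul_cancel₀ hcard.ne', one_smul] at h3
  · intro h a ha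
    refine ⟨?_, ?_⟩
    · rw [NS.closure_eqN F hQ Rl]
      exact hull_ind (p := fun a => a ∈ KN 𝒜 Γ j u) KN_zero
        (fun _ _ h1 h2 => KN_add h1 h2) (fun _ _ ht h => KN_smul ht h) (fun a ha => ha.2) ha
    · refine hull_le (fun a ha => ?_) ha
      obtain ⟨β, hβ, h4⟩ := Int.p2 ha.1
      refine int_eff F hQ Rl ha.1 ha.2 ?_
      rw [h4]
      refine h β hβ ?_
      rw [← h4]
      exact ha.2.2

/-- `Nef(X)^e ⊆ Nef(X)^+`. -/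
theorem sub_plus (F : IsProj 𝒜 u) (hQ : IsQuotient 𝒜 u Γ) (Rl : Rel (base Γ) j H₀) :
    nefEff 𝒜 Γ j u ⊆
      convexHull ℝ (nefCone 𝒜 Γ j u ∩ {a | ∃ m : ℕ, 0 < m ∧ (m : ℝ) • a ∈ integral 𝒜 Γ j}) ↔
    ∀ b ∈ Submodule.span ℝ {b | ∃ β, X324.CF.Inv 𝒜 Γ β ∧ b = rv β}, b ∈ NefF 𝒜 u ∩ EffF 𝒜 →
      b ∈ coneHull {b | ∃ β, (X324.CF.Inv 𝒜 Γ β ∧ rv β ∈ NefF 𝒜 u) ∧ b = rv β} := by
  have := hQ.fin_gal
  have hcard : (0 : ℝ) < Nat.card (gal Γ) := by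
    have : 0 < Nat.card (gal Γ) := Nat.card_pos
    exact_mod_cast this
  have hexp := expo_pos hQ
  have hexpr : (0 : ℝ) < expo Γ := by exact_mod_cast hexp
  have hspan : (Submodule.span ℝ {b : Fin ρ → ℝ | ∃ β, X324.CF.Inv 𝒜 Γ β ∧ b = rv β}) = Bs 𝒜 Γ := rfl
  rw [plus_eq F hQ Rl, hspan]
  constructor
  · intro h b hb hbb
    have h1 : (i2 F.base hQ ⟨b, hb⟩ : N1 𝒜 Γ j) ∈ nefEff 𝒜 Γ j u := by
      refine ⟨?_, i2_eff F hQ hbb.2⟩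
      rw [NS.closure_eqN F hQ Rl]
      exact ⟨fun e => le_refl (0 : ℝ), hbb.1⟩
    have h2 : ∀ a : N1 𝒜 Γ j, a ∈ coneHull {a | a ∈ intL 𝒜 Γ j ∧ a ∈ KN 𝒜 Γ j u} →
        (val a).2 ∈ coneHull {b | ∃ β, (X324.CF.Inv 𝒜 Γ β ∧ rv β ∈ NefF 𝒜 u) ∧ b = rv β} := by
      intro a ha
      refine hull_ind (p := fun a : N1 𝒜 Γ j => (val a).2 ∈
        coneHull {b | ∃ β, (X324.CF.Inv 𝒜 Γ β ∧ rv β ∈ NefF 𝒜 u) ∧ b = rv β}) ?_ ?_ ?_ ?_ ha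
      · exact hull_zero
      · intro a b h1 h2
        exact hull_add h1 h2
      · intro t a ht h
        exact hull_smul ht h
      · rintro a ⟨h3, h4⟩
        obtain ⟨β, hβ, h5⟩ := Int.p2 h3
        exact hull_mem ⟨β, ⟨hβ, by rw [← h5]; exact h4.2⟩, h5⟩
    have h3 := h2 _ (h h1)
    rwa [val_i2] at h3
  · rintro h a ⟨haK, haE⟩
    rw [NS.closure_eqN F hQ Rl] at haK
    rw [← split F.base hQ a]
    refine hull_add ?_ ?_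
    · refine hull_ind (p := fun a => (i1 (p1 hQ a) : N1 𝒜 Γ j) ∈
        coneHull {a | a ∈ intL 𝒜 Γ j ∧ a ∈ KN 𝒜 Γ j u}) ?_ ?_ ?_ ?_ haE
      · rw [map_zero, map_zero]
        exact hull_zero
      · intro a b h1 h2
        rw [map_add, map_add]
        exact hull_add h1 h2
      · intro t a ht h1
        rw [map_smul, map_smul]
        exact hull_smul ht h1
      · intro a ha
        have h2 : Pool.Agent.Y167.Integral ((expo Γ : ℝ) • p1 hQ a) := by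
          obtain ⟨𝓛, f, hc, -⟩ := ha
          exact ⟨_, isClass_toLB hQ hc⟩
        refine hull_scaled hexpr ⟨?_, ?_⟩
        · rw [← map_smul]
          exact Int.i1 h2
        · have h5 : ∀ e, 0 ≤ ((val a).1 e e).re := effective_form hQ ha
          exact KN_smul hexpr.le ⟨h5, nefF_zero⟩
    · refine i2_hull' F.base hQ (Q := fun β => rv β ∈ NefF 𝒜 u) (fun β hβ h => ?_)
        (h _ (p2 a).2 ⟨haK.2, eff_deg haE⟩)
      have hb : rv β ∈ Bs 𝒜 Γ := Submodule.subset_span ⟨β, hβ, rfl⟩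
      refine ⟨Nat.card (gal Γ), Nat.card_pos, _,
        ⟨Int.i2 F.base hQ (b := ⟨rv β, hb⟩) hβ rfl, ?_⟩, ?_⟩
      · exact KN_smul hcard.le ⟨fun e => le_refl (0 : ℝ), h⟩
      · rw [← map_smul, val_i2]
        rfl

end Pool.Agent.U201.NP
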